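import Pool.Agent.Q86.WittHopf

set_option autoImplicit false

open Pool.Agent.Q86.WittHopf Pool.Agent.Q86.EnvHopf

/-- There is a finitely generated complex Hopf algebra with a non-zero element on which all
submultiplicative seminorms vanish. -/
theorem Pool.Agent.Results.MP_f83094_an.NotInjective.result :
    ∃ (H : Type) (_ : Ring H) (_ : HopfAlgebra ℂ H) (h : H),
      Algebra.FiniteType ℂ H ∧ h ≠ 0 ∧
      ∀ p : Seminorm ℂ H, (∀ a b, p (a * b) ≤ p a * p b) → p h = 0 :=
  ⟨U ℂ L, inferInstance, inferInstance, g 0, finiteType, g_ne_zero,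
    fun _ hp => seminorm_g hp 0⟩
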